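import Pool.Agent.Helper939_Tri.Meas

set_option autoImplicit false

/-!
# Infinitely many infinite tricolor paths: the avoidance criterion

For every colour law `p`, there are almost surely infinitely many infinite tricolor paths if and
only if the probability that some infinite tricolor path avoids a cube of side `r` does not tend
to zero with `r`, where the cube may be placed anywhere (its centre may depend on `r`).

In particular a single (deterministic) set `D` of cells whose complement contains arbitrarily
large cubes, such as a half-space, a slab, or the complement of a very sparse union of growing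
cubes, and a positive probability that some infinite tricolor path stays in `D`, already force
infinitely many infinite tricolor paths.
-/

namespace Pool.Agent.Results.MP_5e745b_pr.Avoidance

open MeasureTheory Pool.Agent.Helper939.Tri

/-- **The avoidance criterion.**  There are almost surely infinitely many infinite tricolor paths
if and only if there is `c > 0` such that, for every `r`, for some cube of half-side `r` the
probability that some infinite tricolor path avoids this cube is at least `c`. -/
theorem result (p : PMF (Fin 3)) :
    (∀ᵐ ω ∂(Pr p), {P | InfinitePath ω P}.Infinite) ↔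
      ∃ c : ℝ, 0 < c ∧ ∀ r : ℕ, ∃ x : Pt,
        c ≤ (Pr p).real {ω | ∃ P, InfinitePath ω P ∧ Avoids P (Cube x r)} := by
  constructor
  · intro h
    refine ⟨1, one_pos, fun r => ⟨0, ?_⟩⟩
    have h1 : ∀ᵐ ω ∂(Pr p), ω ∈ Av (Cube 0 r) := by
      filter_upwards [h] with ω hω
      exact (infinite_iff ω).1 hω r
    have h2 : Pr p (Av (Cube 0 r)) = 1 := (mem_ae_iff_prob_eq_one (meas_Av _)).1 h1
    have h3 : (Pr p).real (Av (Cube 0 r)) = 1 := by
      rw [measureReal_def, h2, ENNReal.toReal_one]
    exact h3.symm.le
  · rintro ⟨c, hc, h⟩
    by_contra hcon
    obtain ⟨r, hr⟩ := dichotomy p hcon (ε := ENNReal.ofReal c) (ENNReal.ofReal_pos.2 hc)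
    obtain ⟨x, hx⟩ := h r
    have h1 := hr x
    have h2 : (Pr p).real (Av (Cube x r)) < c := by
      rw [measureReal_def]
      have := (ENNReal.toReal_lt_toReal (measure_ne_top _ _) ENNReal.ofReal_ne_top).2 h1
      rwa [ENNReal.toReal_ofReal hc.le] at this
    exact absurd hx (not_le.2 h2)

end Pool.Agent.Results.MP_5e745b_pr.Avoidance
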