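import Pool.Agent.Helper939_Tri.Meas

set_option autoImplicit false

/-!
# Number of infinite tricolor paths: the connectivity criterion

If, for each `r`, the probability that some infinite tricolor path meets both the cube of
half-side `r` at the origin and a second cube of half-side `r` can be made arbitrarily small by
the choice of the second cube, then the number of infinite tricolor paths is almost surely zero
or almost surely infinite.
-/

namespace Pool.Agent.Results.MP_5e745b_pr.Connectivity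

open MeasureTheory Pool.Agent.Helper939.Tri

/-- **The connectivity criterion.**  Suppose that for every `r` the infimum over `y` of the
probability that some infinite tricolor path meets both `Cube 0 r` and `Cube y r` is zero.  Then
either there is almost surely no infinite tricolor path, or there are almost surely infinitely
many. -/
theorem result (p : PMF (Fin 3))
    (h : ∀ r : ℕ, ∀ ε : ℝ, 0 < ε → ∃ y : Pt, (Pr p).real {ω | ∃ P, InfinitePath ω P ∧
      ¬ Avoids P (Cube 0 r) ∧ ¬ Avoids P (Cube y r)} ≤ ε) :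
    (∀ᵐ ω ∂(Pr p), ¬ ∃ P, InfinitePath ω P) ∨
      (∀ᵐ ω ∂(Pr p), {P | InfinitePath ω P}.Infinite) := by
  by_cases hinf : ∀ᵐ ω ∂(Pr p), {P | InfinitePath ω P}.Infinite
  · exact Or.inr hinf
  left
  rw [ae_iff]
  simp only [not_not]
  have key : ∀ ε : ℝ, 0 < ε → Pr p {ω | ∃ P, InfinitePath ω P} ≤ 3 * ENNReal.ofReal ε := by
    intro ε hε
    obtain ⟨r, hr⟩ := dichotomy p hinf (ε := ENNReal.ofReal ε) (ENNReal.ofReal_pos.2 hε)
    obtain ⟨y, hy⟩ := h r ε hε
    have hsub : {ω : Pt → Fin 3 | ∃ P, InfinitePath ω P} ⊆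
        (Av (Cube 0 r) ∪ Av (Cube y r)) ∪ {ω | ∃ P, InfinitePath ω P ∧
          ¬ Avoids P (Cube 0 r) ∧ ¬ Avoids P (Cube y r)} := by
      rintro ω ⟨P, hP⟩
      by_cases h1 : Avoids P (Cube 0 r)
      · exact Or.inl (Or.inl ⟨P, hP, h1⟩)
      · by_cases h2 : Avoids P (Cube y r)
        · exact Or.inl (Or.inr ⟨P, hP, h2⟩)
        · exact Or.inr ⟨P, hP, h1, h2⟩
    have hy' : Pr p {ω | ∃ P, InfinitePath ω P ∧
        ¬ Avoids P (Cube 0 r) ∧ ¬ Avoids P (Cube y r)} ≤ ENNReal.ofReal ε := by
      rw [ENNReal.le_ofReal_iff_toReal_le (measure_ne_top _ _) hε.le]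
      exact hy
    calc Pr p {ω | ∃ P, InfinitePath ω P}
        ≤ Pr p ((Av (Cube 0 r) ∪ Av (Cube y r)) ∪ {ω | ∃ P, InfinitePath ω P ∧
          ¬ Avoids P (Cube 0 r) ∧ ¬ Avoids P (Cube y r)}) := measure_mono hsub
      _ ≤ (Pr p (Av (Cube 0 r)) + Pr p (Av (Cube y r))) + Pr p {ω | ∃ P, InfinitePath ω P ∧
          ¬ Avoids P (Cube 0 r) ∧ ¬ Avoids P (Cube y r)} :=
          (measure_union_le _ _).trans (add_le_add_left (measure_union_le _ _) _)
      _ ≤ (ENNReal.ofReal ε + ENNReal.ofReal ε) + ENNReal.ofReal ε :=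
          add_le_add (add_le_add (hr 0).le (hr y).le) hy'
      _ = 3 * ENNReal.ofReal ε := by ring
  by_contra hne
  have hpos : 0 < Pr p {ω | ∃ P, InfinitePath ω P} := pos_iff_ne_zero.2 hne
  have hreal : 0 < (Pr p {ω | ∃ P, InfinitePath ω P}).toReal :=
    ENNReal.toReal_pos hne (measure_ne_top _ _)
  have h1 := key ((Pr p {ω | ∃ P, InfinitePath ω P}).toReal / 4) (by positivity)
  have h2 := ENNReal.toReal_mono (by finiteness) h1
  rw [ENNReal.toReal_mul, ENNReal.toReal_ofReal (by positivity)] at h2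
  norm_num at h2
  linarith

end Pool.Agent.Results.MP_5e745b_pr.Connectivity
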