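import Pool.Agent.Helper939_Tri.Exist
import Pool.Agent.Results.MP_3fb350_pr.SymmetricExtended

set_option autoImplicit false

/-!
# Infinite tricolor paths force crossing probabilities to tend to one

If with positive probability there is an infinite tricolor path, then the probability of the
crossing event `E_n` of the annulus `A_n` tends to one.
-/

namespace Pool.Agent.Results.MP_5e745b_pr.CrossingToOne

open MeasureTheory Filter Relation Pool.Agent.Helper939.Tri
open Pool.Agent.Results.MP_3fb350_pr.SymmetricExtended (E E_of_Xev)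

lemma to_adj {v w : Pt} (h : Helper939.Tri.Adj v w) : Pool.Agent.R970.Tri.adj v w := by
  obtain ⟨h1, h2, h3⟩ := h
  refine ⟨h1, h2, ?_⟩
  rcases h3 with ⟨i, hi, hj⟩ | h3
  · left
    refine ⟨i, ?_, hj⟩
    rcases abs_cases (v i - w i) with h | h <;> omega
  · right
    intro i
    have := h3 i
    rcases abs_cases (v i - w i) with h | h <;> omega

lemma to_tet {Q : Finset Pt} (h : Helper939.Tri.IsVertex Q) : Pool.Agent.R970.Tri.Tet Q :=
  ⟨h.1, fun v hv w hw hvw => to_adj (h.2 v hv w hw hvw)⟩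

/-- Two vertices with a common tricolor edge are equal or joined by a step. -/
lemma step_or_eq {ω : Pt → Fin 3} {T Q R : Finset Pt} (hT : TricolorEdge ω T)
    (hQ : Helper939.Tri.IsVertex Q) (hR : Helper939.Tri.IsVertex R) (h1 : T ⊆ Q) (h2 : T ⊆ R) :
    ReflTransGen (Pool.Agent.R970.Tri.step ω) Q R := by
  by_cases he : Q = R
  · rw [he]
  refine ReflTransGen.single ⟨hQ.1, hR.1, he, (to_tet hQ).2, (to_tet hR).2, ?_, ?_⟩
  · have h3 : T ⊆ Q ∩ R := Finset.subset_inter h1 h2
    have h4 := Finset.card_le_card h3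
    have h40 := hT.1
    have h50 := hQ.1
    have h5 : (Q ∩ R).card < Q.card := by
      refine Finset.card_lt_card ⟨Finset.inter_subset_left, fun hsub => he ?_⟩
      have h6 : Q ⊆ R := fun v hv => (Finset.mem_inter.1 (hsub hv)).2
      exact Finset.eq_of_subset_of_card_le h6 (by rw [hQ.1, hR.1])
    omega
  · intro c
    obtain ⟨v, hv, hvc⟩ := hT.2.2 c
    exact ⟨v, Finset.mem_inter.2 ⟨h1 hv, h2 hv⟩, hvc⟩

lemma chain {ω : Pt → Fin 3} {T T' : Finset Pt} (h : ReflTransGen (Linked ω) T T') :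
    T = T' ∨ ∃ Q Q', Helper939.Tri.IsVertex Q ∧ Helper939.Tri.IsVertex Q' ∧ T ⊆ Q ∧ T' ⊆ Q' ∧
      ReflTransGen (Pool.Agent.R970.Tri.step ω) Q Q' := by
  induction h with
  | refl => exact Or.inl rfl
  | @tail b c _ hbc ih =>
    right
    obtain ⟨hb, hc, R, hR, hbR, hcR⟩ := hbc
    rcases ih with rfl | ⟨Q, Q', hQ, hQ', h1, h2, h3⟩
    · exact ⟨R, R, hR, hR, hbR, hcR, ReflTransGen.refl⟩
    · exact ⟨Q, R, hQ, hR, h1, hcR, h3.trans (step_or_eq hb hQ' hR h2 hbR)⟩

/-- An infinite path meeting the cube `[-n,n]³` crosses the annulus. -/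
lemma E_of_meets {ω : Pt → Fin 3} {n : ℕ} (hn : 1 ≤ n) {P : Set (Finset Pt)}
    (hP : InfinitePath ω P) (hm : ¬ Avoids P (Cube 0 n)) : E n ω := by
  obtain ⟨hinf, T0, hT0, rfl⟩ := hP
  unfold Avoids at hm
  push Not at hm
  obtain ⟨T, hT, v, hv, hvn⟩ := hm
  -- an edge of the path with a cell far away
  have hout : ∃ T' ∈ component ω T0, ∃ w ∈ T', w ∉ Cube 0 (3 * n) := by
    by_contra hcon
    push Not at hcon
    refine hinf ((edges_finite 0 (3 * n)).subset fun S hS => ?_)
    have hSt := tricolor_of_mem hT0 hS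
    obtain ⟨w, hw, -⟩ := hSt.2.2 0
    exact ⟨hSt.2.1, w, hw, hcon S hS w hw⟩
  obtain ⟨T', hT', w, hw, hwn⟩ := hout
  have hreach : ReflTransGen (Linked ω) T T' := by
    have : T' ∈ component ω T := by rw [component_eq hT]; exact hT'
    exact this
  have hw' : ∃ i, 3 * (n : ℤ) < |w i - (0 : Pt) i| := by
    unfold Cube at hwn
    rw [Set.mem_ofPred_eq] at hwn
    push Not at hwn
    obtain ⟨i, hi⟩ := hwn
    exact ⟨i, by push_cast at hi; exact hi⟩
  apply E_of_Xev hn
  rcases chain hreach with rfl | ⟨Q, Q', hQ, hQ', h1, h2, h3⟩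
  · exfalso
    obtain ⟨i, hi⟩ := hw'
    have h4 := hvn i
    by_cases hvw : v = w
    · subst hvw; omega
    · have h5 := ((tricolor_of_mem hT0 hT).2.1 v hv w hw hvw).dist i
      simp only [Pi.zero_apply, sub_zero] at hi h4
      rcases abs_cases (v i) with h6 | h6 <;> rcases abs_cases (w i) with h7 | h7 <;>
        rcases abs_cases (v i - w i) with h8 | h8 <;> omega
  · exact ⟨Q, Q', to_tet hQ, h3, ⟨v, h1 hv, fun i => by simpa using hvn i⟩,
      ⟨w, h2 hw, hw'⟩⟩

/-- **Existence of an infinite tricolor path forces the crossing probabilities to tend to one.** -/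
theorem result (p : PMF (Fin 3)) (h : ¬ ∀ᵐ ω ∂(Pr p), ¬ ∃ P, InfinitePath ω P) :
    Tendsto (fun n : ℕ => (Pr p).real {ω | E n ω}) atTop (nhds 1) := by
  have h1 : Pr p {ω | ∃ P, InfinitePath ω P} = 1 := by
    rcases exists_zero_one p with h0 | h0
    · exfalso
      apply h
      rw [ae_iff]
      simpa only [not_not] using h0
    · exact h0
  let M : ℕ → Set (Pt → Fin 3) := fun n => {ω | ∃ P, InfinitePath ω P ∧ ¬ Avoids P (Cube 0 n)}
  have hmono : Monotone M := by
    rintro m n hmn ω ⟨P, hP, hA⟩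
    exact ⟨P, hP, fun hA' => hA fun T hT v hv hvm => hA' T hT v hv (cube_mono hmn hvm)⟩
  have hU : ⋃ n, M n = {ω | ∃ P, InfinitePath ω P} := by
    ext ω
    constructor
    · intro hω
      obtain ⟨n, P, hP, -⟩ := Set.mem_iUnion.1 hω
      exact ⟨P, hP⟩
    · rintro ⟨P, hP⟩
      obtain ⟨hinf, T, hT, rfl⟩ := hP
      obtain ⟨v, hv, -⟩ := hT.2.2 0
      obtain ⟨r, hr⟩ := exists_cube v
      exact Set.mem_iUnion.2 ⟨r, component ω T, ⟨hinf, T, hT, rfl⟩,
        fun hA => hA T (mem_component_self ω T) v hv hr⟩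
  have hlim := tendsto_measure_iUnion_atTop (μ := Pr p) hmono
  rw [hU, h1] at hlim
  have hlim' : Tendsto (fun n : ℕ => (Pr p).real (M n)) atTop (nhds 1) := by
    have := (ENNReal.tendsto_toReal ENNReal.one_ne_top).comp hlim
    simpa [Function.comp_def, measureReal_def] using this
  refine tendsto_of_tendsto_of_tendsto_of_le_of_le' hlim' tendsto_const_nhds ?_ ?_
  · filter_upwards [eventually_ge_atTop 1] with n hn
    refine measureReal_mono ?_ (measure_ne_top _ _)
    rintro ω ⟨P, hP, hA⟩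
    exact E_of_meets hn hP hA
  · exact Eventually.of_forall fun n => measureReal_le_one

end Pool.Agent.Results.MP_5e745b_pr.CrossingToOne
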